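import Pool.Agent.N972.TP.Law21

/-!
# Non-vanishing of toric periods for the newform of level 21

Let `E` be `y² = x (x - 9) (x + 7)` (conductor 21, no complex multiplication) and let `E_d` be the twist of `E` by the
squarefree integer `d`. In every class of squarefree integers `d` which is given by the sign and by the residue to a
modulus divisible by 21, and in which the root number of `E_d` is `+1`, a positive proportion of the twists have analytic
rank zero. More precisely, if `E_d(ℚ)` is finite and `Ш(E_d/ℚ)[2] = 0`, then the analytic rank and the rank of `E_d` are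
zero, and in each of these classes the `d` with this property have the exact natural density
`η = ∏ (1 - 2^{-i}) = 0.2888...`, or `4/3 η = 0.3850...` if `d > 0`, `3` is split and `7` is not inert in `ℚ(√d)`, by
`|d|` and by the discriminant of `ℚ(√d)`. By Waldspurger's theorem this gives a lower bound for the proportion of the
quadratic fields with prescribed local behaviour for which the toric periods do not vanish.

Helper 972, on top of the theorems on the twists of the curve of conductor 21 and on their densities (helpers 969, 970,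
971, 972, 973, 974, 975, 963, 218, 402, 609, 637, 693, 809, 816, 833, 855, 871, 875, 877, 916, 919, 958 and others).
-/

set_option autoImplicit false

open Finset Filter

namespace Pool.Agent.Results.MP_c07c91_nt.Level21

/-- the coefficient `a` of the twist `y² = x³ + a x + b` of `y² = x (x - 9) (x + 7)` by `d` -/
def A (d : ℤ) : ℤ := -5211 * d ^ 2

/-- the coefficient `b` of the twist `y² = x³ + a x + b` of `y² = x (x - 9) (x + 7)` by `d` -/
def B (d : ℤ) : ℤ := -31050 * d ^ 3

/-- the curve `y² = x³ + a x + b` over `ℚ` -/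
def E (a b : ℤ) : WeierstrassCurve ℚ := { a₁ := 0, a₂ := 0, a₃ := 0, a₄ := (a : ℚ), a₆ := (b : ℚ) }

/-- `E(ℚ)` is finite and `Ш(E/ℚ)` has no element of order two, for `E : y² = x³ + a x + b` -/
def RankZeroShaTwo (a b : ℤ) : Prop :=
  Finite (E a b).toAffine.Point ∧ ∀ x : Pool.Agent.TH841.SH.D.Sha (E a b), 2 • x = 0 → x = 0

/-- the condition for the twist by `d` -/
def Min (d : ℤ) : Prop := RankZeroShaTwo (A d) (B d)

/-- the root number of the twist by the squarefree `d` -/
def rootNumber (d : ℤ) : ℤ := (if d < 0 then -1 else 1) * (if d % 3 = 1 then 1 else -1) *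
  (if d % 7 = 3 ∨ d % 7 = 5 ∨ d % 7 = 6 then -1 else 1)

/-- `d > 0`, `3` is split and `7` is not inert in `ℚ(√d)` -/
def ExcClass (d : ℤ) : Prop := 0 < d ∧ d % 3 = 1 ∧ ¬ (d % 7 = 3 ∨ d % 7 = 5 ∨ d % 7 = 6)

/-- the integers `d` of the same sign as `d₀` and in the same residue class modulo `m` -/
def SameClass (m : ℕ) (d₀ d : ℤ) : Prop :=
  (0 < d ↔ 0 < d₀) ∧ (d < 0 ↔ d₀ < 0) ∧ d % (m : ℤ) = d₀ % (m : ℤ)

/-- the conclusion of the frozen statement `S17291` for `y² = x³ + a x + b`, together with the fact that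
the order of vanishing and the rank are both `0` -/
def BSDRankZero (a b : ℤ) : Prop :=
  4 * a ^ 3 + 27 * b ^ 2 ≠ 0 ∧
    ∃ F : ℂ → ℂ, Differentiable ℂ F ∧
      (∀ s : ℂ, (3 : ℝ) / 2 < s.re →
        HasProd
          (fun p : ℕ => open Classical in
            if p.Prime ∧ ¬ ((p : ℤ) ∣ 2 * (-4 * a ^ 3 - 27 * b ^ 2)) then
              (1 - ((p : ℂ) - (Nat.card {q : ZMod p × ZMod p //
                  q.2 ^ 2 = q.1 ^ 3 + (a : ZMod p) * q.1 + (b : ZMod p)} : ℂ))
                  * (p : ℂ) ^ (-s) + (p : ℂ) ^ (1 - 2 * s))⁻¹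
            else 1)
          (F s)) ∧
      analyticOrderAt F 1 =
        ((Module.finrank ℤ
          (WeierstrassCurve.Affine.Point
            (WeierstrassCurve.toAffine
              ({ a₁ := 0, a₂ := 0, a₃ := 0, a₄ := (a : ℚ), a₆ := (b : ℚ) } :
                WeierstrassCurve ℚ))) : ℕ) : ℕ∞) ∧
      Module.finrank ℤ
        (WeierstrassCurve.Affine.Point
          (WeierstrassCurve.toAffine
            ({ a₁ := 0, a₂ := 0, a₃ := 0, a₄ := (a : ℚ), a₆ := (b : ℚ) } :
              WeierstrassCurve ℚ))) = 0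

open Classical in
/-- the number of the squarefree integers `d`, `|d| ≤ X`, with the property `P` -/
noncomputable def count (P : ℤ → Prop) (X : ℕ) : ℕ :=
  ((Icc (-(X : ℤ)) X).filter fun d => Squarefree d ∧ P d).card

/-- `D` is a fundamental discriminant (`1` included) -/
def Fund (D : ℤ) : Prop := (Squarefree D ∧ D % 4 = 1) ∨
  ∃ m : ℤ, D = 4 * m ∧ Squarefree m ∧ (m % 4 = 2 ∨ m % 4 = 3)

/-- the squarefree integer `d` with `ℚ(√d) = ℚ(√D)` -/
def core (D : ℤ) : ℤ := if D % 2 = 1 then D else D / 4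

open Classical in
/-- the number of the fundamental discriminants `D`, `|D| ≤ X`, for which `core D` has the
property `P` -/
noncomputable def countDisc (P : ℤ → Prop) (X : ℕ) : ℕ :=
  ((Icc (-(X : ℤ)) X).filter fun D => Fund D ∧ P (core D)).card

open Pool.Agent.N919.BS (NS NF)
open Pool.Agent.N972.TP (Cl R21 cc21)

open Classical in
/-- the constant of the class of `d₀` -/
noncomputable def const (η : ℝ) (d₀ : ℤ) : ℝ := if ExcClass d₀ then 4 / 3 * η else η

theorem min_iff (d : ℤ) : Min d ↔ R21 d := by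
  unfold Min RankZeroShaTwo Pool.Agent.N972.TP.R21 Pool.Agent.N875.X15.Fin2
  have e : E (A d) (B d) = Pool.Agent.N637.P21.WS d := rfl
  rw [← e]
  refine and_congr Iff.rfl (forall_congr' fun x => ?_)
  rw [two_nsmul]

theorem root_iff (d : ℤ) : rootNumber d = 1 ↔ Pool.Agent.N809.Red21.f21 d = true :=
  decide_eq_true_iff.symm

theorem const_eq (d₀ : ℤ) : const Pool.Agent.N916.GB.eta d₀ = cc21 d₀ := by
  unfold const Pool.Agent.N972.TP.cc21
  congr 1

theorem cl_iff (m : ℕ) (d₀ d : ℤ) : SameClass m d₀ d ↔ Cl m d₀ d := Iff.rfl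

theorem count_eq (P Q : ℤ → Prop) (h : ∀ d, P d ↔ Q d) : count P = NS Q := by
  classical
  funext X
  unfold count NS
  refine congrArg Finset.card (Finset.ext fun n => ?_)
  refine (Finset.mem_filter).trans (Iff.trans ?_ (Finset.mem_filter).symm)
  exact and_congr_right fun _ => and_congr_right fun hs => h n

theorem countDisc_eq (P Q : ℤ → Prop) (h : ∀ d, P d ↔ Q d) : countDisc P = NF Q := by
  classical
  funext X
  unfold countDisc NF
  refine congrArg Finset.card (Finset.ext fun n => ?_)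
  refine (Finset.mem_filter).trans (Iff.trans ?_ (Finset.mem_filter).symm)
  exact and_congr_right fun _ => and_congr_right fun hs => h _

theorem bsd_of_rank {a b : ℤ} (h0 : 4 * a ^ 3 + 27 * b ^ 2 ≠ 0)
    (h : Pool.Agent.Y687.RankBSD a b) : BSDRankZero a b := by
  obtain ⟨F, h1, h2, h3, h4⟩ := h
  exact ⟨h0, F, h1, h2, by rw [h3, h4]; rfl, h4⟩

theorem hasProd_eta : HasProd (fun i : ℕ => 1 - (1 / 2 : ℝ) ^ (i + 1)) Pool.Agent.N916.GB.eta := by
  have h : Multipliable fun i : ℕ => 1 + -((1 / 2 : ℝ) ^ (i + 1)) := by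
    apply multipliable_one_add_of_summable
    have h1 : Summable fun i : ℕ => (1 / 2 : ℝ) ^ i * (1 / 2) :=
      (summable_geometric_of_lt_one (by norm_num) (by norm_num)).mul_right _
    refine h1.congr fun i => ?_
    rw [norm_neg, Real.norm_of_nonneg (by positivity), pow_succ]
  have h3 := h.hasProd
  have e : (fun i : ℕ => 1 + -((1 / 2 : ℝ) ^ (i + 1))) = fun i : ℕ => 1 - (1 / 2 : ℝ) ^ (i + 1) := by
    funext i
    ring
  rw [e] at h3
  exact h3

theorem result :
    (∀ d : ℤ, Squarefree d → Min d → rootNumber d = 1 ∧ BSDRankZero (A d) (B d)) ∧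
    ∃ η : ℝ, HasProd (fun i : ℕ => 1 - (1 / 2 : ℝ) ^ (i + 1)) η ∧ 0.2887 < η ∧ η < 0.2889 ∧
      ∀ (m : ℕ) (d₀ : ℤ), 0 < m → 21 ∣ m → Squarefree d₀ → rootNumber d₀ = 1 →
        Tendsto (fun X : ℕ => (count (fun d => SameClass m d₀ d ∧ Min d) X : ℝ) /
          (count (SameClass m d₀) X : ℝ)) atTop (nhds (const η d₀)) ∧
        Tendsto (fun X : ℕ => (countDisc (fun d => SameClass m d₀ d ∧ Min d) X : ℝ) /
          (countDisc (SameClass m d₀) X : ℝ)) atTop (nhds (const η d₀)) ∧
        ∃ c : ℝ, 0 < c ∧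
          (∀ᶠ X : ℕ in atTop, c * X ≤ (count (fun d => SameClass m d₀ d ∧ Min d) X : ℝ)) ∧
          ∀ᶠ X : ℕ in atTop, c * X ≤ (countDisc (fun d => SameClass m d₀ d ∧ Min d) X : ℝ) := by
  have hb := Pool.Agent.N916.GB.eta_bounds
  refine ⟨fun d hs h => ?_, Pool.Agent.N916.GB.eta, hasProd_eta, hb.1, hb.2, ?_⟩
  · have h1 := (min_iff d).1 h
    obtain ⟨c1, c2⟩ := Pool.Agent.N972.TP.bsd21 hs h1
    exact ⟨(root_iff d).2 (Pool.Agent.N972.TP.root21 hs h1), bsd_of_rank c1 c2⟩
  · intro m d₀ hm hj hs hR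
    have h1 := Pool.Agent.N972.TP.hgR21 hm hj hs.ne_zero ((root_iff d₀).1 hR)
    have h2 : 0 < cc21 d₀ := by
      unfold Pool.Agent.N972.TP.cc21
      split_ifs <;> linarith [hb.1]
    have h3 := Pool.Agent.N972.TP.law_cl hm hs h2 h1
    rw [count_eq (fun d => SameClass m d₀ d ∧ Min d) (fun d => Cl m d₀ d ∧ R21 d) fun d =>
        and_congr (cl_iff m d₀ d) (min_iff d),
      countDisc_eq (fun d => SameClass m d₀ d ∧ Min d) (fun d => Cl m d₀ d ∧ R21 d) fun d =>
        and_congr (cl_iff m d₀ d) (min_iff d),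
      count_eq (SameClass m d₀) (Cl m d₀) (cl_iff m d₀),
      countDisc_eq (SameClass m d₀) (Cl m d₀) (cl_iff m d₀), const_eq]
    exact h3

end Pool.Agent.Results.MP_c07c91_nt.Level21
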